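import Mathlib

open Filter Topology Finset
open scoped ENNReal

namespace Pool.Agent.Results.MP_8d662a_an.NotStar

/-- `‖x‖_𝓕`. -/
noncomputable def nrm (𝓕 : Set (Finset ℕ)) (x : ℕ → ℝ) : ℝ≥0∞ :=
  ⨆ F ∈ 𝓕, ENNReal.ofReal (∑ i ∈ F, |x i|)

lemma nrm_add (𝓕 : Set (Finset ℕ)) (x y : ℕ → ℝ) : nrm 𝓕 (x + y) ≤ nrm 𝓕 x + nrm 𝓕 y :=
  iSup₂_le fun F hF => le_trans (le_trans (ENNReal.ofReal_le_ofReal (by
    rw [← sum_add_distrib]; exact sum_le_sum fun i _ => abs_add_le _ _)) ENNReal.ofReal_add_le)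
    (add_le_add (le_iSup₂_of_le F hF le_rfl) (le_iSup₂_of_le F hF le_rfl))

lemma nrm_smul (𝓕 : Set (Finset ℕ)) (c : ℝ) (x : ℕ → ℝ) :
    nrm 𝓕 (c • x) ≤ ENNReal.ofReal |c| * nrm 𝓕 x :=
  iSup₂_le fun F hF => by
    simp only [Pi.smul_apply, smul_eq_mul, abs_mul, ← mul_sum,
      ENNReal.ofReal_mul (abs_nonneg c)]
    gcongr
    exact le_iSup₂_of_le F hF le_rfl

/-- The space `X_𝓕`. -/
def XF (𝓕 : Set (Finset ℕ)) : Submodule ℝ (ℕ → ℝ) where
  carrier := {x | Tendsto (fun n => nrm 𝓕 ((Set.Ici n).indicator x)) atTop (𝓝 0)}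
  zero_mem' := by simp [nrm]
  add_mem' {x y} hx hy := tendsto_of_tendsto_of_tendsto_of_le_of_le tendsto_const_nhds
    (by simpa using Tendsto.add hx hy) (fun _ => zero_le) fun n => by
      rw [Set.indicator_add']; exact nrm_add _ _ _
  smul_mem' c x hx := tendsto_of_tendsto_of_tendsto_of_le_of_le tendsto_const_nhds
    (by simpa using ENNReal.Tendsto.const_mul (a := .ofReal |c|) hx (by simp))
    (fun _ => zero_le) fun n => by
      rw [show (Set.Ici n).indicator (c • x) = c • (Set.Ici n).indicator x from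
        Set.indicator_const_smul _ c x]
      exact nrm_smul _ _ _

/-- The Schur property of `X_𝓕`. -/
def Schur (𝓕 : Set (Finset ℕ)) : Prop :=
  ∀ (x : ℕ → XF 𝓕) (l : XF 𝓕), (∀ f : XF 𝓕 →ₗ[ℝ] ℝ,
    (∃ C : ℝ, ∀ y : XF 𝓕, |f y| ≤ C * (nrm 𝓕 y).toReal) →
      Tendsto (fun n => f (x n)) atTop (𝓝 (f l))) →
    Tendsto (fun n => nrm 𝓕 (x n - l)) atTop (𝓝 0)

/-- The closure of `𝓕`: sets all of whose finite subsets lie in `𝓕`. -/
def clos (𝓕 : Set (Finset ℕ)) : Set (Set ℕ) := {A | ∀ F : Finset ℕ, ↑F ⊆ A → F ∈ 𝓕}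

/-- Property `(S*)`. -/
def SStar (𝓕 : Set (Finset ℕ)) : Prop :=
  ∀ F : ℕ → Finset ℕ, (∀ n, F n ∈ 𝓕) → (∀ m n, m ≠ n → Disjoint (F m) (F n)) →
    ∃ 𝒜 : Set (Set ℕ), 𝒜.Finite ∧ 𝒜 ⊆ clos 𝓕 ∧ {n | (F n : Set ℕ) ⊆ ⋃₀ 𝒜}.Infinite

lemma schur (y : ℕ → ℕ → ℝ) (hy : ∀ n, Summable fun m => |y n m|)
    (h : ∀ s : ℕ → Bool, Tendsto (fun n => ∑' m, if s m then y n m else 0) atTop (𝓝 0)) :
    Tendsto (fun n => ∑' m, |y n m|) atTop (𝓝 0) := by
  have hb : ∀ n m (p : Prop) [Decidable p], ‖if p then y n m else 0‖ ≤ |y n m| := fun n m p _ => by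
    split_ifs <;> simp
  refine Metric.tendsto_nhds.2 fun ε hε => ?_
  obtain ⟨N, s, hs⟩ := nonempty_interior_of_iUnion_of_closed
    (f := fun N => {s : ℕ → Bool | ∀ n, N ≤ n → |∑' m, if s m then y n m else 0| ≤ ε / 4})
    (fun N => by
      simp only [Set.ofPred_forall]
      refine isClosed_iInter fun n => isClosed_iInter fun _ => isClosed_le
        (continuous_tsum (fun m => ?_) (hy n) fun m s => hb n m _).abs continuous_const
      exact (continuous_of_discreteTopology (f := fun b : Bool => if b then y n m else 0)).comp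
        (continuous_apply m))
    (Set.eq_univ_of_forall fun s => by
      obtain ⟨N, hN⟩ := Metric.tendsto_atTop.1 (h s) (ε / 4) (by positivity)
      exact Set.mem_iUnion.2 ⟨N, fun n hn => by simpa using (hN n hn).le⟩)
  obtain ⟨_, ⟨x, k, rfl⟩, -, hv⟩ :=
    (PiNat.isTopologicalBasis_cylinders _).exists_subset_of_mem_open hs isOpen_interior
  have h1 : Tendsto (fun n => ∑ m ∈ range k, |y n m|) atTop (𝓝 0) := by
    rw [← sum_const_zero (s := range k)]
    refine tendsto_finsetSum _ fun m _ => ?_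
    simpa using (h fun i => decide (i = m)).abs
  filter_upwards [eventually_ge_atTop N, h1.eventually (gt_mem_nhds (half_pos hε))] with n h2 h3
  have h4 := fun t : ℕ → Bool => abs_le.1 (interior_subset (hv (PiNat.mem_cylinder_iff.2
    (fun i hi => if_pos hi : ∀ i < k, (if i < k then x i else t i) = x i))) n h2)
  have h5 := (h4 fun i => decide (0 < y n i)).2
  have h6 := (h4 fun i => decide (y n i < 0)).1
  have h7 : ∑' m, |y n m| = ∑ m ∈ range k, |y n m| +
      ((∑' m, if (if m < k then x m else decide (0 < y n m)) then y n m else 0) -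
        ∑' m, if (if m < k then x m else decide (y n m < 0)) then y n m else 0) := by
    rw [← (hasSum_sum_of_ne_finset_zero (s := range k) (L := .unconditional ℕ)
      (f := fun m => if m < k then |y n m| else 0) fun m hm => if_neg (by simpa using hm)).tsum_eq
      |>.trans (sum_congr rfl fun m hm => if_pos (mem_range.1 hm)),
      ← Summable.tsum_sub (.of_norm_bounded (hy n) fun m => hb n m _)
        (.of_norm_bounded (hy n) fun m => hb n m _),
      ← Summable.tsum_add (.of_norm_bounded (hy n) fun m => by split_ifs <;> simp)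
        ((Summable.of_norm_bounded (hy n) fun m => hb n m _).sub
        (.of_norm_bounded (hy n) fun m => hb n m _))]
    refine tsum_congr fun m => ?_
    by_cases hm : m < k
    · simp [hm]
    · rcases lt_trichotomy (y n m) 0 with h | h | h
      · simp [hm, h, h.not_gt, abs_of_neg h]
      · simp [h]
      · simp [hm, h, h.not_gt, abs_of_pos h]
  rw [Real.dist_0_eq_abs, abs_of_nonneg (tsum_nonneg fun _ => abs_nonneg _), h7]
  linarith

abbrev T := {p : ℕ × Finset ℕ // p.2 ⊆ range (2 * p.1 + 1) ∧ p.1 + 1 ≤ p.2.card}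

instance : Infinite T := .of_injective
  (fun n => ⟨(n, range (2 * n + 1)), subset_rfl, by simp; omega⟩) fun _ _ h => by
    simpa using congrArg (·.1.1) h

noncomputable def e : ℕ ≃ T := nonempty_equiv_of_countable.some

def fam : Set (Finset ℕ) :=
  {F | (∃ n, ∀ m ∈ F, (e m).1.1 = n) ∨ ∃ g : ℕ → ℕ, ∀ m ∈ F, g (e m).1.1 ∈ (e m).1.2}

lemma key (y : ℕ → ℝ) (h : nrm fam y ≠ ∞) (G : Finset ℕ) :
    ∑ m ∈ G, |y m| ≤ 2 * (nrm fam y).toReal := by
  have h1 : ∀ n, ∃ i ∈ range (2 * n + 1), (∑ m ∈ G with (e m).1.1 = n, |y m|) / 2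
      ≤ ∑ m ∈ G with (e m).1.1 = n, if i ∈ (e m).1.2 then |y m| else 0 := fun n => by
    refine exists_le_of_sum_le (by simp) ?_
    rw [sum_comm, sum_div, sum_comm]
    refine sum_le_sum fun m hm => ?_
    obtain rfl := (mem_filter.1 hm).2
    have h2 : ((e m).1.1 + 1 : ℝ) ≤ (e m).1.2.card := by exact_mod_cast (e m).2.2
    rw [sum_ite_mem, inter_eq_right.2 (e m).2.1, sum_const, sum_const, card_range, nsmul_eq_mul,
      nsmul_eq_mul]
    push_cast
    nlinarith [abs_nonneg (y m)]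
  choose g _ hg using h1
  have h2 : ∑ m ∈ G with g (e m).1.1 ∈ (e m).1.2, |y m| ≤ (nrm fam y).toReal :=
    (ENNReal.ofReal_le_iff_le_toReal h).1 (le_iSup₂_of_le _
      (Or.inr ⟨g, fun m hm => (mem_filter.1 hm).2⟩) le_rfl)
  have hm : ∀ m ∈ G, (e m).1.1 ∈ G.image fun m => (e m).1.1 := fun m => mem_image_of_mem _
  rw [sum_filter, ← sum_fiberwise_of_maps_to hm] at h2
  rw [← sum_fiberwise_of_maps_to hm, ← div_le_iff₀' two_pos, sum_div]
  refine (sum_le_sum fun n _ => (hg n).trans_eq (sum_congr rfl fun m hm => ?_)).trans h2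
  rw [(mem_filter.1 hm).2]

lemma summ (y : XF fam) : Summable fun m => |y.1 m| := by
  obtain ⟨n, hn⟩ := (Tendsto.eventually y.2 (gt_mem_nhds one_pos)).exists
  have := (summable_nat_add_iff n).2
    (summable_of_sum_le (fun _ => abs_nonneg _) (key _ hn.ne_top))
  exact (summable_nat_add_iff n).1 (this.congr fun m => by simp)

lemma nrm_le {y : ℕ → ℝ} (h : Summable fun m => |y m|) :
    nrm fam y ≤ ENNReal.ofReal (∑' m, |y m|) :=
  iSup₂_le fun F _ => ENNReal.ofReal_le_ofReal (h.sum_le_tsum F fun _ _ => abs_nonneg _)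

theorem result : ∃ 𝓕 : Set (Finset ℕ), (∀ F ∈ 𝓕, ∀ G ⊆ F, G ∈ 𝓕) ∧ (∀ m, ∃ F ∈ 𝓕, m ∈ F) ∧
    Schur 𝓕 ∧ ¬ SStar 𝓕 := by
  classical
  refine ⟨fam, fun F hF G hG => hF.imp (fun ⟨n, h⟩ => ⟨n, fun m hm => h m (hG hm)⟩)
    fun ⟨n, h⟩ => ⟨n, fun m hm => h m (hG hm)⟩, fun m => ⟨{m}, Or.inl ⟨(e m).1.1, by simp⟩, by simp⟩,
    fun x l h => ?_, fun h => ?_⟩
  · have hb : ∀ (s : ℕ → Bool) (y : XF fam) m, ‖if s m then y.1 m else 0‖ ≤ |y.1 m| :=
      fun s y m => by split_ifs <;> simp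
    have hs : ∀ (s : ℕ → Bool) (y : XF fam), Summable fun m => if s m then y.1 m else 0 :=
      fun s y => .of_norm_bounded (summ y) (hb s y)
    have h1 := schur (fun n => (x n - l).1) (fun n => summ _) fun s => by
      let f : XF fam →ₗ[ℝ] ℝ :=
        { toFun := fun y => ∑' m, if s m then y.1 m else 0
          map_add' := fun a b => by
            rw [← (hs s a).tsum_add (hs s b)]
            exact tsum_congr fun m => by split_ifs <;> simp
          map_smul' := fun c a => by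
            rw [RingHom.id_apply, smul_eq_mul, ← tsum_mul_left]
            exact tsum_congr fun m => by split_ifs <;> simp }
      have h2 := (h f ⟨2, fun y => (tsum_of_norm_bounded (summ y).hasSum (hb s y)).trans
        ((summ y).tsum_le_of_sum_le
          (key _ ((nrm_le (summ y)).trans_lt ENNReal.ofReal_lt_top).ne))⟩).sub_const (f l)
      simp only [← map_sub, sub_self] at h2
      exact h2
    exact tendsto_of_tendsto_of_tendsto_of_le_of_le tendsto_const_nhds
      (by simpa using ENNReal.tendsto_ofReal h1) (fun _ => zero_le) fun n => nrm_le (summ (x n - l))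
  have hf : ∀ n, {m | (e m).1.1 = n}.Finite := fun n =>
    Set.Finite.of_finite_image (f := fun m => (e m).1.2)
      ((range (2 * n + 1)).powerset.finite_toSet.subset (by
        rintro _ ⟨m, rfl, rfl⟩; exact mem_coe.2 (mem_powerset.2 (e m).2.1)))
      fun a ha b hb h => e.injective (Subtype.ext (Prod.ext (ha.trans hb.symm) h))
  obtain ⟨𝒜, h1, h2, h3⟩ := h (fun n => (hf n).toFinset) (fun n => Or.inl ⟨n, by simp⟩)
    fun m n hmn => disjoint_left.2 fun a ha hb => hmn
      (((hf m).mem_toFinset.1 ha).symm.trans ((hf n).mem_toFinset.1 hb))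
  have h4 : ∀ A ∈ 𝒜, ∀ᶠ n in atTop, ∃ i, ∀ m ∈ A, (e m).1.1 = n → i ∈ (e m).1.2 := by
    intro A hA
    rcases A.eq_empty_or_nonempty with rfl | ⟨a, ha⟩
    · simp
    filter_upwards [eventually_gt_atTop (e a).1.1] with n hn
    rcases h2 hA (insert a ((hf n).toFinset.filter (· ∈ A))) (by
      rw [coe_insert, coe_filter]; exact Set.insert_subset ha fun _ h => h.2) with ⟨k, h⟩ | ⟨g, h⟩
    · refine ⟨0, fun m hm h' => ?_⟩
      have := h a (by simp)
      have := h m (by simp [hm, h'])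
      omega
    · exact ⟨g n, fun m hm h' => h' ▸ h m (by simp [hm, h'])⟩
  obtain ⟨n, h5, h6, h7⟩ := ((Nat.frequently_atTop_iff_infinite.2 h3).and_eventually
    (((eventually_all_finite h1).2 h4).and (eventually_ge_atTop h1.toFinset.card))).exists
  choose! g hg using h6
  have h8 := le_card_sdiff (h1.toFinset.image g) (range (2 * n + 1))
  have h9 := card_image_le (s := h1.toFinset) (f := g)
  rw [card_range] at h8
  obtain ⟨m, hm⟩ := e.surjective ⟨(n, range (2 * n + 1) \ h1.toFinset.image g), sdiff_subset, by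
    dsimp only; omega⟩
  obtain ⟨A, hA, hmA⟩ := h5 (show m ∈ ((hf n).toFinset : Set ℕ) by simp [hm])
  have := hg A hA m hmA (by rw [hm])
  rw [hm] at this
  exact (mem_sdiff.1 this).2 (mem_image_of_mem _ (h1.mem_toFinset.2 hA))

end Pool.Agent.Results.MP_8d662a_an.NotStar
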